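import Pool.Agent.Helper50.T5b.Dec
import Pool.Agent.Helper31.T5.CntT
import Pool.Agent.Helper27.T5b.Range

/-!
# T5b (MP_12a1af), block CNTb: the number of elements of a state
-/

set_option autoImplicit false

namespace Pool.Agent.Helper50.T5b

open Finset Pool.Agent.Helper27.T5b Pool.Agent.Helper37.T5b Pool.Agent.Helper84.T5b
open Pool.Agent.Helper5.ET (bb era)
open Pool.Agent.Helper30.T5b (pz QF QT RT BP ez NL)

theorem DD_pos (k : ℕ) : 0 < DD k :=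
  Nat.mul_pos (by positivity) (pow_pos (Pool.Agent.Helper30.T5b.BP_pos k) _)

/-- **CNTb (count).** -/
theorem count_all {m : ℕ} (hm : 0 < m) (k : ℕ) : ∃ (K0 : ℕ) (C : ℝ), 0 < C ∧
    ∀ l, K0 ≤ l → ∀ w : Key → ℕ, (∀ q, w q < Mk m k q) →
      Real.sqrt (NL m k l) ≤ C * (l : ℝ) ^ (10 + 3 * k) * ((AA m k l w).card : ℝ) := by
  obtain ⟨t0, C1, hC1, h1⟩ := Pool.Agent.Helper31.T5.card_conf_ge hm k
  obtain ⟨l1, hl1⟩ := exists_bL (m := m) hm k t0
  obtain ⟨l2, hl2⟩ := Pool.Agent.Helper30.T5b.exists_late (m := m) (k := k) hm 0 0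
  have hD : (0 : ℝ) < (DD k : ℝ) := by exact_mod_cast DD_pos k
  refine ⟨max (max l1 l2) 1, (DD k : ℝ) * C1 ^ (10 + 3 * k), by positivity, ?_⟩
  intro l hl w hw
  have e1 : l1 ≤ l := (le_max_left _ _).trans ((le_max_left _ _).trans hl)
  have e2 : l2 ≤ l := (le_max_right _ _).trans ((le_max_left _ _).trans hl)
  have e3 : 1 ≤ l := (le_max_right _ _).trans hl
  obtain ⟨a1, a2⟩ := hl1 l e1
  obtain ⟨-, -, b3, -⟩ := hl2 l e2
  have hlr : (0 : ℝ) < (l : ℝ) := by exact_mod_cast e3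
  have h2 := h1 l e3 a1 b3 a2
  have h3 := card_Vw_ge m k l hw
  have hr := rL_bounds (m := m) hm k l
  have h4 := card_AA_ge (l := l) hm hr.2.2.2.1 hr.2.2.2.2.2 w
  have h5 : (XJ m k l ×ˢ Fintype.piFinset (fun t : Fin (rL m k l) => Ys m k l t)).card =
      (XJ m k l).card * (∏ t ∈ range (rL m k l), (Ys m k l t).card) := by
    rw [Finset.card_product, Fintype.card_piFinset,
      Fin.prod_univ_eq_prod_range (fun t => (Ys m k l t).card) (rL m k l)]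
  rw [← h5] at h4
  set Y : ℝ := ((XJ m k l ×ˢ Fintype.piFinset
    (fun t : Fin (rL m k l) => Ys m k l t)).card : ℝ) with hY
  have h4' : Y * ((Vw m k l w).card : ℝ) ≤ (DD k : ℝ) * ((AA m k l w).card : ℝ) := by
    rw [hY]
    exact_mod_cast h4
  have h6 : Real.sqrt (NL m k l) = Real.sqrt (Un m k l) * Real.sqrt (RT m k (bL m k l)) := by
    rw [← Un_mul_RT hm a1, Nat.cast_mul, Real.sqrt_mul (Nat.cast_nonneg _)]
  have hP : (0 : ℝ) < (C1 * (l : ℝ)) ^ (10 + 3 * k) := by positivity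
  rw [div_le_iff₀ hP] at h2
  have h7 : Real.sqrt (RT m k (bL m k l)) ≤ ((Vw m k l w).card : ℝ) := by
    have := Real.sqrt_nonneg (RT m k (bL m k l) : ℝ)
    linarith
  rw [h6]
  calc Real.sqrt (Un m k l) * Real.sqrt (RT m k (bL m k l))
      ≤ (Y * (C1 * (l : ℝ)) ^ (10 + 3 * k)) * ((Vw m k l w).card : ℝ) :=
        mul_le_mul h2 h7 (Real.sqrt_nonneg _) (mul_nonneg (Nat.cast_nonneg _) hP.le)
    _ = (Y * ((Vw m k l w).card : ℝ)) * (C1 * (l : ℝ)) ^ (10 + 3 * k) := by ring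
    _ ≤ ((DD k : ℝ) * ((AA m k l w).card : ℝ)) * (C1 * (l : ℝ)) ^ (10 + 3 * k) :=
        mul_le_mul_of_nonneg_right h4' hP.le
    _ = (DD k : ℝ) * C1 ^ (10 + 3 * k) * (l : ℝ) ^ (10 + 3 * k) *
          ((AA m k l w).card : ℝ) := by rw [mul_pow]; ring

end Pool.Agent.Helper50.T5b
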