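import Pool.Agent.Helper22.NEARb.Defs
import Pool.Agent.Helper50.T5b.Dec
import Pool.Agent.Helper27.T5b.Range

/-!
# T5b (MP_12a1af), block NEARb, Nb2 and Nb3: the contexts of a bad pair are in a finite set, and
the number of contexts
-/

set_option autoImplicit false

namespace Pool.Agent.Helper50.T5b

open Finset
open Pool.Agent.Helper5.ET hiding Key Mk AA Rp keysOf el ext
open Pool.Agent.Helper27.T4
open Pool.Agent.Helper27.T5b Pool.Agent.Helper37.T5b
open Pool.Agent.Helper30.T5b hiding pz_prime pz_inj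
open Pool.Agent.Helper22.HW Pool.Agent.Helper22.SL Pool.Agent.Helper57.T5
open Pool.Agent.Helper39.T5 Pool.Agent.Helper50.T5
open Pool.Agent.Helper84.T5b
open Pool.Agent.Helper22.NEARb

variable {m k : ℕ}

/-- elements of the inner windows -/
theorem Zw_lt (hm : 0 < m) {l t : ℕ} (hl : bb 0 ≤ mL m k l) (hd : Dbl m k l)
    (h2 : 2 * (FF m k l (rL m k l) *
        LL (Pool.Agent.Helper84.T5b.QQ m k (sL m k l)) (rL m k l)) ≤ NL m k l)
    {w : Key → ℕ} {u : ℕ} (hu : u ∈ Pool.Agent.Helper44.T5b.Zw m k l t w) :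
    u < 17 * NL m k l := by
  obtain ⟨y, hy, v, hv, rfl⟩ := Pool.Agent.Helper44.T5b.mem_Zw.1 hu
  unfold Vw VW at hv
  rw [mem_filter, mem_Ico] at hv
  obtain ⟨⟨hv1, hv2⟩, _⟩ := hv
  have hc := codes_lt hd w 0 (fun _ => 0) (fun t : Fin (rL m k l) => y t)
  have hU := Un_mul_RT hm hl
  have h1 : ∑ t ∈ Ico t (rL m k l), cs m k l t w 0 (y t) ≤
      ∑ t : Fin (rL m k l), cs m k l t w 0 (y t) := by
    rw [Fin.sum_univ_eq_sum_range (fun t => cs m k l t w 0 (y t)) (rL m k l)]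
    refine Finset.sum_le_sum_of_subset ?_
    intro i hi
    rw [mem_Ico] at hi
    rw [mem_range]
    exact hi.2
  have h3 : Un m k l * v ≤ Un m k l * (16 * RT m k (bL m k l)) :=
    Nat.mul_le_mul_left (Un m k l) hv2.le
  have h4 : Un m k l * (16 * RT m k (bL m k l)) = 16 * NL m k l := by
    rw [← hU]
    ring
  omega

theorem bm_mul_RT (hm : 0 < m) {t l' l : ℕ} (h0 : bb 0 ≤ mL m k l')
    (hs : sL m k l' = sL m k l) (ht : t ≤ sL m k l) :
    bm m k t l' l * RT m k (sL m k l - t) = NL m k l' := by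
  unfold bm
  rw [mul_assoc, LL_mul_RT m k ht]
  have := Jn_mul_RT (cpl_self hm h0)
  rw [hs] at this
  exact this

theorem NL_ef_eq (hm : 0 < m) {t l' l : ℕ} (h0 : bb 0 ≤ mL m k l') (h0' : bb 0 ≤ mL m k l)
    (hll : l' ≤ l) (hs : sL m k l' = sL m k l) :
    NL m k (ef m k l t) = NL m k l' * Pool.Agent.Helper44.T5b.DJ m k l l' t := by
  have hle : l' ≤ ef m k l t := hll.trans (lt_ez hm _ l).le
  have hFt : Jn m k (sL m k l) (ef m k l t) =
      Jn m k (sL m k l) l' * Pool.Agent.Helper44.T5b.DJ m k l l' t := by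
    unfold Jn Pool.Agent.Helper44.T5b.DJ
    rw [← Pool.Agent.Helper44.T5b.NN_add]
    congr 1
    funext i
    have h1 := Pool.Agent.Helper44.T5b.aJ_mono m k (sL m k l) i hle
    simp only [Pool.Agent.Helper44.T5b.dJ]
    omega
  have h1 := FF_mul_RT (k := k) hm h0' t
  have h2 := Jn_mul_RT (cpl_self hm h0)
  rw [hs] at h2
  rw [← h1, ← h2]
  show Jn m k (sL m k l) (ef m k l t) * _ = _
  rw [hFt]
  ring

/-- the sizes of a late pair -/
theorem exists_sizes (hm : 0 < m) (k : ℕ) : ∃ K0 : ℕ, ∀ t l' l, K0 ≤ l' → PDb m k t l' l →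
    1 ≤ wW m k l t ∧
    Pool.Agent.Helper44.T5b.DJ m k l l' t ≤ (10 ^ 6) ^ (wW m k l t / 32) ∧
    NL m k l ≤ NL m k l' * Pool.Agent.Helper44.T5b.DJ m k l l' t ∧
    bm m k t l' l * RT m k (sL m k l - t) = NL m k l' ∧
    RT m k (sL m k l - t) ≤ (10 ^ 6) ^ wW m k l t ∧ 0 < bm m k t l' l ∧
    (∀ w : Key → ℕ, ∀ u ∈ Pool.Agent.Helper44.T5b.Zw m k l t w, u < 17 * NL m k l) ∧
    (∀ w : Key → ℕ, ∀ u ∈ Pool.Agent.Helper44.T5b.Zw m k l' t w, u < 17 * NL m k l') := by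
  obtain ⟨l1', C, h1⟩ := exists_NL_le (k := k) hm
  obtain ⟨l2', h2⟩ := exists_bL hm k C
  obtain ⟨l3', h3⟩ := exists_dbl hm k
  refine ⟨l1' + l2' + l3', fun t l' l hl' hP => ?_⟩
  have hll := hP.le
  obtain ⟨hb', hC'⟩ := h2 l' (by omega)
  obtain ⟨hb, hC⟩ := h2 l (by omega)
  obtain ⟨hd', hn'⟩ := h3 l' (by omega)
  obtain ⟨hd, hn⟩ := h3 l (by omega)
  have hs := hP.sL_eq
  have hr := rL_bounds hm k l
  have ht := hP.tr
  have hts : t ≤ sL m k l := by omega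
  have hu : C ≤ sL m k l - t := by omega
  have hD : NL m k (ef m k l t) = NL m k l' * Pool.Agent.Helper44.T5b.DJ m k l l' t :=
    NL_ef_eq hm hb' hb hll hs
  have hW : 1 ≤ wW m k l t := by
    have := SS_ge hm (sL m k l - t)
    unfold wW
    omega
  have hX : NL m k (ef m k l t) ≤ NL m k l' * (10 ^ 6) ^ (wW m k l t / 32) := by
    have hle : l' ≤ ef m k l t := hll.trans (lt_ez hm _ l).le
    refine h1 _ _ _ (by omega) hle ?_
    have e1 : ef m k l t = ez m (sL m k l - t) l' := by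
      rw [← hP.com]
      unfold ef
      rw [hs]
    have e2 := Pool.Agent.Helper30.T5b.ez_sub_le hm (sL m k l - t) l'
    have e3 := exists_SS_ge hm C (sL m k l - t) hu
    have e4 := SS_ge hm (sL m k l - t)
    rw [e1]
    unfold wW
    omega
  have hNpos : 0 < NL m k l' := Pool.Agent.Helper30.T5b.NL_pos m k l'
  refine ⟨hW, ?_, ?_, bm_mul_RT hm hb' hs hts, RT_le hm k _, ?_, ?_, ?_⟩
  · rw [hD] at hX
    exact Nat.le_of_mul_le_mul_left hX hNpos
  · rw [← hD]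
    exact NL_mono m k (lt_ez hm _ l).le
  · refine Nat.pos_of_ne_zero (fun h => ?_)
    have := bm_mul_RT hm hb' hs hts
    rw [h, zero_mul] at this
    omega
  · exact fun w u hu => Zw_lt hm hb hd hn hu
  · exact fun w u hu => Zw_lt hm hb' hd' hn' hu

/-- **Nb2.** -/
theorem bad_ctx (m k : ℕ) (hm : 2 ≤ m) : ∃ K0 : ℕ, ∀ t l' l, K0 ≤ l' → PDb m k t l' l →
    ∀ (w : Key → ℕ) (R : ℝ), 0 ≤ R → Bad m k t l' l R w →
    ∃ c ∈ Jx m k t l' l, R < cNx m k t l' l w c := by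
  obtain ⟨K0, hK⟩ := exists_sizes (m := m) (by omega) k
  refine ⟨K0, ?_⟩
  rintro t l' l hl' hP w R hR ⟨⟨θ, γ, κ₂, N⟩, ⟨hθ, hγ, hκ⟩, hlt⟩
  obtain ⟨hW, hDJ, hNl, hbm, hRT, hbpos, hz, hz'⟩ := hK t l' l hl' hP
  refine ⟨(θ, γ, κ₂, N), ?_, hlt⟩
  simp only at hθ hγ hκ
  have hpos : 0 < cNx m k t l' l w (θ, γ, κ₂, N) := by
    have : (0 : ℝ) < (cNx m k t l' l w (θ, γ, κ₂, N) : ℝ) := lt_of_le_of_lt hR hlt
    exact_mod_cast this
  unfold cNx Pool.Agent.Helper22.HW.cN at hpos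
  rw [Finset.card_pos] at hpos
  obtain ⟨⟨i, u, u'⟩, hq⟩ := hpos
  simp only [mem_filter, mem_product, mem_range] at hq
  obtain ⟨⟨hi, hu, hu'⟩, he⟩ := hq
  have b1 := hz w u hu
  have b2 := hz' w u' hu'
  set D := Pool.Agent.Helper44.T5b.DJ m k l l' t with hDd
  set B := bm m k t l' l with hB
  set Wt := wW m k l t with hWt
  set Q := RT m k (sL m k l - t) with hQ
  have hDpos : 0 < D := by omega
  have e2 := Nat.mod_lt (clx m k t l' l (θ, γ, κ₂, N) i) hDpos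
  have e3 : κ₂ * D ≤ 3 * D := Nat.mul_le_mul_right _ (by omega)
  have hQpos : 0 < Q := RT_pos m k _
  have c1 : u < B * (17 * (Q * D)) := by
    calc u < 17 * NL m k l := b1
      _ ≤ 17 * (NL m k l' * D) := Nat.mul_le_mul_left _ hNl
      _ = B * (17 * (Q * D)) := by rw [← hbm]; ring
  have c2 : u' < B * (17 * (Q * D)) := by
    calc u' < 17 * NL m k l' := b2
      _ ≤ 17 * (NL m k l' * D) := Nat.mul_le_mul_left _ (Nat.le_mul_of_pos_right _ hDpos)
      _ = B * (17 * (Q * D)) := by rw [← hbm]; ring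
  have c3 : clx m k t l' l (θ, γ, κ₂, N) i % D + κ₂ * D ≤ 4 * (Q * D) := by
    have : D ≤ Q * D := Nat.le_mul_of_pos_left _ hQpos
    omega
  have c4 : B * N < B * (38 * (Q * D)) := by
    rw [← he]
    have := Nat.mul_le_mul_left B c3
    calc u + u' + B * (clx m k t l' l (θ, γ, κ₂, N) i % D + κ₂ * D)
        < B * (17 * (Q * D)) + B * (17 * (Q * D)) + B * (4 * (Q * D)) := by omega
      _ = _ := by ring
  have c5 : N < (10 ^ 6) ^ (3 * Wt) := by
    refine (Nat.lt_of_mul_lt_mul_left c4).trans_le ?_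
    calc 38 * (Q * D) ≤ (10 ^ 6) * ((10 ^ 6) ^ Wt * (10 ^ 6) ^ (Wt / 32)) :=
          Nat.mul_le_mul (by norm_num) (Nat.mul_le_mul hRT hDJ)
      _ = (10 ^ 6) ^ (Wt + Wt / 32 + 1) := by rw [← pow_add, ← pow_succ']
      _ ≤ _ := Nat.pow_le_pow_right (by norm_num) (by omega)
  unfold Jx
  simp only [mem_product, mem_range]
  exact ⟨hθ, hγ, hκ, c5⟩

/-- **Nb3.** the number of contexts -/
theorem card_Jx (m k : ℕ) (hm : 2 ≤ m) : ∃ K0 : ℕ, ∀ t l' l, K0 ≤ l' → PDb m k t l' l →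
    ((Jx m k t l' l).card : ℝ) ≤ Real.exp (90 * wW m k l t) := by
  obtain ⟨K0, hK⟩ := exists_sizes (m := m) (by omega) k
  refine ⟨K0, fun t l' l hl' hP => ?_⟩
  obtain ⟨hW, hDJ, hNl, hbm, hRT, hbpos, hz, hz'⟩ := hK t l' l hl' hP
  set D := Pool.Agent.Helper44.T5b.DJ m k l l' t with hDd
  set Wt := wW m k l t with hWt
  have h1 : (Jx m k t l' l).card ≤ (10 ^ 6) ^ (5 * Wt) := by
    unfold Jx
    rw [card_product, card_product, card_product, card_range, card_range, card_range]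
    have hT := Pool.Agent.Helper44.T5.card_Theta_le (pJ k (sL m k l))
      (Pool.Agent.Helper44.T5b.dJ m k l l' t)
    have hT' : (Pool.Agent.Helper44.T5.Theta (pJ k (sL m k l))
      (Pool.Agent.Helper44.T5b.dJ m k l l' t)).card ≤ D * D := hT
    calc _ ≤ (D * D) * (D * (4 * (10 ^ 6) ^ (3 * Wt))) := Nat.mul_le_mul_right _ hT'
      _ ≤ ((10 ^ 6) ^ (Wt / 32) * (10 ^ 6) ^ (Wt / 32)) * ((10 ^ 6) ^ (Wt / 32) *
          (10 ^ 6 * (10 ^ 6) ^ (3 * Wt))) :=
          Nat.mul_le_mul (Nat.mul_le_mul hDJ hDJ)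
            (Nat.mul_le_mul hDJ (Nat.mul_le_mul_right _ (by norm_num)))
      _ = (10 ^ 6) ^ (Wt / 32 + Wt / 32 + (Wt / 32 + (3 * Wt + 1))) := by
          rw [pow_add, pow_add, pow_add, pow_add _ (3 * Wt) 1, pow_one]
          ring
      _ ≤ _ := Nat.pow_le_pow_right (by norm_num) (by omega)
  have h2 : (10 ^ 6 : ℝ) ≤ Real.exp 18 := by
    have e1 := Real.exp_one_gt_d9
    have e2 : Real.exp 18 = Real.exp 1 ^ 18 := by
      rw [← Real.exp_nat_mul]
      norm_num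
    rw [e2]
    calc (10 ^ 6 : ℝ) ≤ 2.7 ^ 18 := by norm_num
      _ ≤ _ := pow_le_pow_left₀ (by norm_num) (by linarith) 18
  calc ((Jx m k t l' l).card : ℝ) ≤ (10 ^ 6 : ℝ) ^ (5 * Wt) := by exact_mod_cast h1
    _ ≤ Real.exp 18 ^ (5 * Wt) := pow_le_pow_left₀ (by norm_num) h2 _
    _ = Real.exp (90 * Wt) := by
        rw [← Real.exp_nat_mul]
        congr 1
        push_cast
        ring

end Pool.Agent.Helper50.T5b
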